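import Mathlib
import Pool.Agent.R490.PrimeArg
import Pool.Agent.R463.EX11

set_option autoImplicit false

/-!
# The exact local structure of the almost primes `a ^ 2 + 1`
-/

namespace Pool.Agent.Results.MP_7169d5_nt.ExactBlocks

open Finset Filter

/-! ### All arguments -/

/-- `n ^ 2 + 1` has no prime factor `p ≤ X ^ (1 / r)` -/
def Good (X r n : ℕ) : Prop :=
  ∀ p : ℕ, p.Prime → (p : ℝ) ≤ (X : ℝ) ^ (1 / (r : ℝ)) → ¬ p ∣ n ^ 2 + 1

/-- the number of the residues `n` modulo `p` for which `p` divides `(n + h) ^ 2 + 1` for an `h ∈ H` -/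
def nu (H : Finset ℕ) (p : ℕ) : ℕ :=
  ((range p).filter (fun n : ℕ => ∃ h ∈ H, p ∣ (n + h) ^ 2 + 1)).card

/-- the product of `1 - nu(p) / p` over the primes `p ≤ X ^ (1 / r)` -/
noncomputable def V (H : Finset ℕ) (X r : ℕ) : ℝ :=
  ∏ p ∈ (Icc 1 ⌊(X : ℝ) ^ (1 / (r : ℝ))⌋₊).filter Nat.Prime, (1 - (nu H p : ℝ) / p)

open Classical in
/-- the number of the `n` in `(Z, Z + Y]` for which the good integers in `[n, n + L]` are exactly the
integers `n + h` with `h ∈ H` -/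
noncomputable def Blocks (H : Finset ℕ) (L X r Z Y : ℕ) : ℕ :=
  ((Ioc Z (Z + Y)).filter (fun n => ∀ h ≤ L, Good X r (n + h) ↔ h ∈ H)).card

/-! ### Multiples of primes -/

/-- neither `m` nor `(t m) ^ 2 + 1` has a prime factor `p ≤ X ^ (1 / r)` -/
def GoodT (t X r m : ℕ) : Prop :=
  ∀ p : ℕ, p.Prime → (p : ℝ) ≤ (X : ℝ) ^ (1 / (r : ℝ)) → ¬ p ∣ m ∧ ¬ p ∣ (t * m) ^ 2 + 1

/-- the number of the residues `n` modulo `p` for which `p` divides `m` or `(t m) ^ 2 + 1` for one of the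
integers `m = n + h`, `h ∈ H` -/
def nuT (t : ℕ) (H : Finset ℕ) (p : ℕ) : ℕ :=
  ((range p).filter (fun n : ℕ => ∃ h ∈ H, p ∣ n + h ∨ p ∣ (t * (n + h)) ^ 2 + 1)).card

/-- the product of `1 - nuT(p) / p` over the primes `p ≤ X ^ (1 / r)` -/
noncomputable def VT (t : ℕ) (H : Finset ℕ) (X r : ℕ) : ℝ :=
  ∏ p ∈ (Icc 1 ⌊(X : ℝ) ^ (1 / (r : ℝ))⌋₊).filter Nat.Prime, (1 - (nuT t H p : ℝ) / p)

/-- the product of `(1 - nuT(p) / p) / (1 - 1 / p)` over the primes `p ≤ X ^ (1 / r)` -/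
noncomputable def WT (t : ℕ) (H : Finset ℕ) (X r : ℕ) : ℝ :=
  ∏ p ∈ (Icc 1 ⌊(X : ℝ) ^ (1 / (r : ℝ))⌋₊).filter Nat.Prime,
    (1 - (nuT t H p : ℝ) / p) / (1 - 1 / (p : ℝ))

open Classical in
/-- the number of the integers `n` in `(u, u + Y]` for which `n + b` is a PRIME and the good integers
`GoodT` in `[n, n + L]` are exactly the integers `n + h`, `h ∈ H` -/
noncomputable def BlocksT (t : ℕ) (H : Finset ℕ) (b L X r u Y : ℕ) : ℕ :=
  ((Ioc u (u + Y)).filter (fun n => (n + b).Prime ∧ ∀ h ≤ L, GoodT t X r (n + h) ↔ h ∈ H)).card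

/-! ### Proofs -/

lemma qq_Q (p m : ℕ) : Pool.Agent.W123.RU.Poly.Q (Pool.Agent.TH464.PO.qs 1 0 1) p m ↔ p ∣ m ^ 2 + 1 := by
  rw [Pool.Agent.TH464.PO.qs_Q 1 0 1 p m, one_mul, zero_mul, add_zero]
  exact_mod_cast Iff.rfl

lemma good_iff (X r n : ℕ) :
    Pool.Agent.R463.PS.Sifted (Pool.Agent.TH464.PO.qs 1 0 1) X r n ↔ Good X r n := by
  unfold Pool.Agent.R463.PS.Sifted Good
  constructor
  · intro h p hp hpr hd
    obtain ⟨i, hi⟩ := (qq_Q p n).2 hd
    exact h p hp hpr i hi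
  · intro h p hp hpr i hi
    exact h p hp hpr ((qq_Q p n).1 ⟨i, hi⟩)

lemma V_eq (H : Finset ℕ) (X r : ℕ) :
    Pool.Agent.R463.PS.VH (Pool.Agent.TH464.PO.qs 1 0 1) H X r = V H X r := by
  classical
  unfold Pool.Agent.R463.PS.VH V
  apply prod_congr rfl
  intro p _
  have : Pool.Agent.R463.PS.omH (Pool.Agent.TH464.PO.qs 1 0 1) H p = nu H p := by
    unfold Pool.Agent.R463.PS.omH nu
    congr 1
    ext n
    simp only [mem_filter]
    constructor
    · rintro ⟨h1, h, hh, h2⟩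
      exact ⟨h1, h, hh, (qq_Q p (n + h)).1 h2⟩
    · rintro ⟨h1, h, hh, h2⟩
      exact ⟨h1, h, hh, (qq_Q p (n + h)).2 h2⟩
  rw [this]

lemma V0_eq (X r : ℕ) :
    Pool.Agent.R463.PS.V (Pool.Agent.TH464.PO.qs 1 0 1) X r = V {0} X r := by
  classical
  unfold Pool.Agent.R463.PS.V V
  apply prod_congr rfl
  intro p _
  have : Pool.Agent.R463.PS.om (Pool.Agent.TH464.PO.qs 1 0 1) p = nu {0} p := by
    unfold Pool.Agent.R463.PS.om nu
    congr 1
    ext n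
    simp only [mem_filter, mem_singleton, exists_eq_left, add_zero]
    exact and_congr_right fun _ => qq_Q p n
  rw [this]

lemma Blocks_eq (H : Finset ℕ) (L X r Z Y : ℕ) :
    Blocks H L X r Z Y = Pool.Agent.R463.PS.exS (Pool.Agent.TH464.PO.qs 1 0 1) H L X r Z Y := by
  classical
  unfold Blocks Pool.Agent.R463.PS.exS
  congr 1
  ext n
  simp only [mem_filter, good_iff]

/-- the function -/
def q (t : ℕ) (x : ℤ) : ℤ := (t : ℤ) ^ 2 * x ^ 2 + 1

/-- the system -/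
noncomputable def sy (t : ℕ) : Fin 2 → Polynomial ℤ :=
  Pool.Agent.R490.PA.two (Pool.Agent.TH464.PW.quad ((t : ℤ) ^ 2) 0 1)

lemma ev (t : ℕ) (x : ℤ) : (Pool.Agent.TH464.PW.quad ((t : ℤ) ^ 2) 0 1).eval x = q t x := by
  unfold Pool.Agent.TH464.PW.quad q
  simp

lemma sy_Q (t p m : ℕ) : Pool.Agent.W123.RU.Poly.Q (sy t) p m ↔ p ∣ m ∨ p ∣ (t * m) ^ 2 + 1 := by
  rw [show Pool.Agent.W123.RU.Poly.Q (sy t) p m ↔ p ∣ m ∨ (p : ℤ) ∣ q t (m : ℤ) from
    Pool.Agent.R490.PA.two_Q (Pool.Agent.TH464.PW.quad ((t : ℤ) ^ 2) 0 1) (q t) (ev t) p m]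
  have e : q t (m : ℤ) = (((t * m) ^ 2 + 1 : ℕ) : ℤ) := by
    unfold q
    push_cast
    ring
  rw [e, Int.natCast_dvd_natCast]

lemma goodT_iff (t X r n : ℕ) : Pool.Agent.R463.PS.Sifted (sy t) X r n ↔ GoodT t X r n := by
  unfold Pool.Agent.R463.PS.Sifted GoodT
  constructor
  · intro h p hp hpr
    have h1 : ¬ Pool.Agent.W123.RU.Poly.Q (sy t) p n := by
      rintro ⟨i, hi⟩
      exact h p hp hpr i hi
    rw [sy_Q, not_or] at h1
    exact h1
  · intro h p hp hpr i hi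
    have h1 : Pool.Agent.W123.RU.Poly.Q (sy t) p n := ⟨i, hi⟩
    rw [sy_Q] at h1
    have h2 := h p hp hpr
    exact h1.elim h2.1 h2.2

lemma VT_eq (t : ℕ) (H : Finset ℕ) (X r : ℕ) : Pool.Agent.R463.PS.VH (sy t) H X r = VT t H X r := by
  classical
  unfold Pool.Agent.R463.PS.VH VT
  apply prod_congr rfl
  intro p _
  have : Pool.Agent.R463.PS.omH (sy t) H p = nuT t H p := by
    unfold Pool.Agent.R463.PS.omH nuT
    congr 1
    ext n
    simp only [mem_filter]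
    constructor
    · rintro ⟨h1, h, hh, h2⟩
      exact ⟨h1, h, hh, (sy_Q t p (n + h)).1 h2⟩
    · rintro ⟨h1, h, hh, h2⟩
      exact ⟨h1, h, hh, (sy_Q t p (n + h)).2 h2⟩
  rw [this]

lemma VT0_eq (t X r : ℕ) : Pool.Agent.R463.PS.V (sy t) X r = VT t {0} X r := by
  classical
  unfold Pool.Agent.R463.PS.V VT
  apply prod_congr rfl
  intro p _
  have : Pool.Agent.R463.PS.om (sy t) p = nuT t {0} p := by
    unfold Pool.Agent.R463.PS.om nuT
    congr 1
    ext n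
    simp only [mem_filter, mem_singleton, exists_eq_left, add_zero]
    exact and_congr_right fun _ => sy_Q t p n
  rw [this]

lemma WT_eq (t : ℕ) (H : Finset ℕ) (X r : ℕ) :
    VT t H X r / Pool.Agent.H373R2.T7.Vz ⌊(X : ℝ) ^ (1 / (r : ℝ))⌋₊ = WT t H X r := by
  unfold VT WT Pool.Agent.H373R2.T7.Vz
  rw [Finset.prod_div_distrib]
  rfl

open Classical in
lemma BlocksT_eq (t : ℕ) (H : Finset ℕ) (b L X r u Y : ℕ) : BlocksT t H b L X r u Y =
    ((Ioc u (u + Y)).filter (fun n => (n + b).Prime ∧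
      ∀ h ≤ L, Pool.Agent.R463.PS.Sifted (sy t) X r (n + h) ↔ h ∈ H)).card := by
  unfold BlocksT
  congr 1
  ext n
  simp only [mem_filter, goodT_iff]

lemma goodP (t : ℕ) (ht : 1 ≤ t) (hev : Even t) (N A : ℕ) (hN : 1 ≤ N) (htN : t ≤ N ^ A) :
    Pool.Agent.R490.PA.Good 2 ((N : ℤ) ^ (2 * A)) (Pool.Agent.TH464.PW.quad ((t : ℤ) ^ 2) 0 1) (q t) where
  ev := ev t
  irr := Pool.Agent.TH464.PW.quad_irr ((t : ℤ) ^ 2) 0 1 (by positivity) (fun p hp h => by
    have h1 : p ∣ 1 := by exact_mod_cast h.2.2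
    exact hp.one_lt.ne' (Nat.dvd_one.1 h1)) (by
    rintro ⟨m, hm⟩
    have h1 : (0 : ℤ) < (t : ℤ) ^ 2 := by positivity
    nlinarith [mul_self_nonneg m])
  deg := by rw [Pool.Agent.TH464.PW.quad_deg ((t : ℤ) ^ 2) 0 1 (by positivity)]
  degD := by rw [Pool.Agent.TH464.PW.quad_deg ((t : ℤ) ^ 2) 0 1 (by positivity)]
  hgt := fun n => Pool.Agent.Y879.GL.quad_coeff ((t : ℤ) ^ 2) 0 1 n _ (by
    rw [abs_of_nonneg (by positivity), mul_comm 2 A, pow_mul]
    exact pow_le_pow_left₀ (by positivity) (by exact_mod_cast htN) 2) (by rw [abs_zero]; positivity) (by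
    rw [abs_one]
    exact one_le_pow₀ (by exact_mod_cast hN))
  adm := fun p hp => by
    unfold q
    have hcast : ∀ m : ℕ, ((p : ℤ) ∣ (t : ℤ) ^ 2 * (m : ℤ) ^ 2 + 1) → p ∣ t ^ 2 * m ^ 2 + 1 := by
      intro m h
      exact_mod_cast h
    have h3 : ¬ 3 ∣ t ^ 2 + 1 := by
      have h4 : t % 3 = 0 ∨ t % 3 = 1 ∨ t % 3 = 2 := by omega
      have h5 : (t ^ 2 + 1) % 3 = ((t % 3) ^ 2 + 1) % 3 := by
        rw [Nat.add_mod, Nat.pow_mod, Nat.add_mod ((t % 3) ^ 2)]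
      rcases h4 with h4 | h4 | h4 <;> rw [h4] at h5 <;> omega
    by_cases h1 : p ∣ t ^ 2 + 1
    · have h2 : p ≠ 2 := by
        rintro rfl
        obtain ⟨c, hc⟩ := hev
        have h4 : 2 ∣ t ^ 2 := by
          rw [hc, sq]
          exact ⟨(c + c) * c, by ring⟩
        omega
      have h3' : p ≠ 3 := by
        rintro rfl
        exact h3 h1
      refine ⟨2, fun h => ?_, fun h => ?_⟩
      · have := Nat.le_of_dvd (by norm_num) h
        have := hp.two_le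
        omega
      · have h4 := hcast 2 h
        have h5 : p ∣ 4 * (t ^ 2 + 1) - (t ^ 2 * 2 ^ 2 + 1) := Nat.dvd_sub (h1.mul_left 4) h4
        have h6 : 4 * (t ^ 2 + 1) - (t ^ 2 * 2 ^ 2 + 1) = 3 := by omega
        rw [h6] at h5
        exact h3' ((Nat.prime_dvd_prime_iff_eq hp Nat.prime_three).1 h5)
    · refine ⟨1, fun h => ?_, fun h => ?_⟩
      · exact hp.one_lt.ne' (Nat.dvd_one.1 h)
      · apply h1
        have h4 := hcast 1 h
        rwa [one_pow, mul_one] at h4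

/-- **The exact local structure of the almost primes `n ^ 2 + 1`.** For all `K`, `A`, `θ, δ > 0`, `x₀` and
`ε > 0` there is `r₀` such that for all `r ≥ r₀` and all large `X`:
(1) for ALL intervals `(Z, Z + Y]` with `Y ≥ X ^ θ`, all sets `H` of at most `K` natural numbers with
`0 ∈ H`, and all `L ≥ max H` with `L V ≤ x₀`, `V = V {0} X r`: the number of the `n` in `(Z, Z + Y]` for
which the good integers in `[n, n + L]` are exactly the `n + h`, `h ∈ H`, is `Y V(H) exp (- L V)`, up to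
the factor `1 ± ε`;
(2) for all even `1 ≤ t ≤ X ^ A`, all `N ≥ X ^ θ`, all windows `(u, u + Y]` in `(0, N]` with
`u, Y ≥ δ N`, all such sets `H`, all `b ∈ H` and all `L ≥ max H` with `L VT ≤ x₀`, `VT = VT t {0} X r`:
the number of the `n` in the window for which `n + b` is a PRIME and the integers `m` in `[n, n + L]` with
`GoodT` are exactly the `n + h`, `h ∈ H`, is `Y WT(H) exp (- L VT) / log N`, up to the factor `1 ± ε`. -/
theorem result (K A : ℕ) (θ δ : ℝ) (hθ : 0 < θ) (hδ : 0 < δ) (hδ1 : δ ≤ 1) (x₀ ε : ℝ) (hε : 0 < ε) :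
    ∃ r₀ : ℕ, ∀ r : ℕ, r₀ ≤ r → ∀ᶠ X : ℕ in atTop,
      (∀ Z Y : ℕ, (X : ℝ) ^ θ ≤ Y → ∀ H : Finset ℕ, H.card ≤ K → 0 ∈ H → ∀ L : ℕ,
        (∀ h ∈ H, h ≤ L) → L * V {0} X r ≤ x₀ →
        |(Blocks H L X r Z Y : ℝ) - Y * V H X r * Real.exp (-(L * V {0} X r))| ≤
          ε * (Y * V H X r * Real.exp (-(L * V {0} X r)))) ∧
      ∀ t : ℕ, 1 ≤ t → Even t → t ≤ X ^ A → ∀ N : ℕ, (X : ℝ) ^ θ ≤ N →
        ∀ H : Finset ℕ, H.card ≤ K → 0 ∈ H → ∀ b ∈ H, ∀ L : ℕ,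
        (∀ h ∈ H, h ≤ L) → L * VT t {0} X r ≤ x₀ →
        ∀ u Y : ℕ, δ * N ≤ u → δ * N ≤ Y → u + Y ≤ N →
        |(BlocksT t H b L X r u Y : ℝ) * Real.log N -
            Y * WT t H X r * Real.exp (-(L * VT t {0} X r))| ≤
          ε * (Y * WT t H X r * Real.exp (-(L * VT t {0} X r))) := by
  obtain ⟨r₁, h1⟩ := Pool.Agent.R463.PS.blocks' 1 2 K ((0 : ℕ) + 1) 1 θ x₀ ε (by norm_num) one_pos hθ hε
  choose r0 h2 using fun g : ℕ => Pool.Agent.R463.EX.blocksP 2 2 (g + 1) (by omega)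
    (((2 * A : ℕ) : ℝ) + 1) 1 θ δ x₀ ε (by positivity) one_pos hθ hδ hδ1 hε
  refine ⟨max (max r₁ 2) (∑ g ∈ range K, r0 g), fun r hr => ?_⟩
  have hr1 : r₁ ≤ r := (le_max_left _ _).trans ((le_max_left _ _).trans hr)
  have hr2 : 2 ≤ r := (le_max_right _ _).trans ((le_max_left _ _).trans hr)
  have hr3 : (∑ g ∈ range K, r0 g) ≤ r := (le_max_right _ _).trans hr
  have hall := (Finset.eventually_all (range K)).2 (fun g hg =>
    h2 g r ((Finset.single_le_sum (fun _ _ => Nat.zero_le _) hg).trans hr3))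
  have hsys := Pool.Agent.TH464.PO.qs_sys 1 0 1 one_pos (fun p hp h => by
    have h1 : p ∣ 1 := by exact_mod_cast h.1
    exact hp.one_lt.ne' (Nat.dvd_one.1 h1)) (fun h => by
      have := h.2
      revert this
      decide) (by
      rintro ⟨m, hm⟩
      nlinarith [mul_self_nonneg m])
  obtain ⟨v, Cv, hv, hCv, hVf⟩ := Pool.Agent.R463.PS.V_fixed (Pool.Agent.TH464.PO.qs 1 0 1) hsys.irr
    (fun i => Nat.one_le_iff_ne_zero.2 (hsys.deg i).ne') hsys.lead hsys.inj hsys.adm r hr2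
  filter_upwards [h1 r hr1 Cv, hall, hVf, eventually_ge_atTop 1] with X g1 g2 g3 hX1
  constructor
  · intro Z Y hY H hH h0 L hL hx
    have h5 := g1 _ (Pool.Agent.R463.PS.quad_system 0 X hX1 1 0 1 one_pos (fun p hp h => by
      have h1 : p ∣ 1 := by exact_mod_cast h.1
      exact hp.one_lt.ne' (Nat.dvd_one.1 h1)) (fun h => by
        have := h.2
        revert this
        decide) (by
        rintro ⟨m, hm⟩
        nlinarith [mul_self_nonneg m]) (by simp) (by simp) (by simp) _) (by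
      have := g3.2
      rwa [pow_one] at this) Z Y hY H hH h0 L hL (by rw [V0_eq]; exact hx)
    rw [← Blocks_eq, V_eq, V0_eq] at h5
    exact h5
  · intro t ht hev htX N hN H hH h0 b hb L hL hx u Y hu hY huY
    have hpos : 0 < H.card := card_pos.2 ⟨0, h0⟩
    have h5 := g2 (H.card - 1) (mem_range.2 (by omega)) (sy t)
      ((goodP t ht hev X A hX1 htX).us (by norm_num) hX1 _) ⟨0, rfl⟩ N hN H (by omega) h0 b hb L hL
      (by rw [VT0_eq]; exact hx) u Y hu hY huY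
    rw [VT_eq, VT0_eq, WT_eq] at h5
    rw [BlocksT_eq]
    exact h5

end Pool.Agent.Results.MP_7169d5_nt.ExactBlocks
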