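import Pool.Agent.R498.MP.LinC

set_option autoImplicit false

/-!
# Almost prime values `(h p) ^ 2 + 1` at the primes with index in a residue class
-/

namespace Pool.Agent.Results.MP_7169d5_nt.IndexClasses

open Filter

/-- The `j`-th prime: `pr 1 = 2`, `pr 2 = 3`, and so on. -/
noncomputable def pr (j : ℕ) : ℕ := Nat.nth Nat.Prime (j - 1)

/-- `a ^ 2 + 1` has at most `R` prime factors, counted with multiplicity, all of them at least `w`. -/
def AlmostPrimeValue (R : ℕ) (w : ℝ) (a : ℕ) : Prop :=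
  (a ^ 2 + 1).primeFactorsList.length ≤ R ∧ ∀ q : ℕ, q.Prime → q ∣ a ^ 2 + 1 → w ≤ q


/-- **Almost primes `(h p_j) ^ 2 + 1` for `j` in any residue class, with bounded gaps.** Let `h` be even,
let `q` be squarefree and let `c ((h c) ^ 2 + 1)` be coprime to `q` (for instance `q = 1`); let `u ≥ 1` and
`r` be given. There are `C`, `R` and `δ > 0` such that for every `b` and all large `N` there is a `k ≥ 1`
such that the `r + 1` primes `p_j`, `j = u k + b, u (k + 1) + b, ..., u (k + r) + b`, lie in `(N, 2 N]`, in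
an interval of length at most `C`, they are all `≡ c` modulo `q`, and for each of them, `p` say, the number
`a ^ 2 + 1` with `a = h p` has at most `R` prime factors, all of them at least `N ^ δ`. -/
theorem result (h : ℕ) (hh : Even h) (q c : ℕ) (hq : Squarefree q)
    (hc : IsCoprime ((c : ℤ) * (((h : ℤ) * c) ^ 2 + 1)) (q : ℤ)) (u r : ℕ) (hu : 0 < u) :
    ∃ (C R : ℕ) (δ : ℝ), 0 < δ ∧ ∀ b : ℕ, ∀ᶠ N : ℕ in atTop, ∃ k : ℕ, 0 < k ∧
      N < pr (u * k + b) ∧ pr (u * (k + r) + b) ≤ 2 * N ∧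
      pr (u * (k + r) + b) ≤ pr (u * k + b) + C ∧
      ∀ i ≤ r, pr (u * (k + i) + b) ≡ c [MOD q] ∧
        AlmostPrimeValue R ((N : ℝ) ^ δ) (h * pr (u * (k + i) + b)) := by
  obtain ⟨C, R, δ, hδ, hmain⟩ := Pool.Agent.R498.MP.index_runsC (Pool.Agent.R498.MP.HX h 1)
    (fun n _ => Pool.Agent.R498.MP.HX_nz h 1 (by
      rintro ⟨r, hr⟩
      nlinarith [mul_self_nonneg r]) n)
    (Pool.Agent.R498.MP.HX_adm h 1 (Pool.Agent.R498.MP.one_ok h hh)) q c hq (fun p hp hpq => by
      rw [Pool.Agent.R498.MP.HX_eval]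
      exact Pool.Agent.R498.MP.cop_to _ q hc p hp hpq) u r hu
  refine ⟨C, R, δ, hδ, fun b => ?_⟩
  filter_upwards [hmain (u + b - 1)] with N hN
  obtain ⟨k, h1, h2, h3, h4⟩ := hN
  have e : ∀ i, pr (u * (k + 1 + i) + b) = Nat.nth Nat.Prime (u * (k + i) + (u + b - 1)) := by
    intro i
    unfold pr
    congr 1
    have : u * (k + 1 + i) = u * (k + i) + u := by ring
    omega
  have e0 : pr (u * (k + 1) + b) = Nat.nth Nat.Prime (u * k + (u + b - 1)) := by
    have := e 0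
    simpa using this
  refine ⟨k + 1, by omega, ?_, ?_, ?_, fun i hi => ?_⟩
  · rw [e0]; exact h1
  · rw [e r]; exact h2
  · rw [e0, e r]; exact h3
  · rw [e i]
    obtain ⟨gc, -, g1, g2⟩ := h4 i hi
    rw [Pool.Agent.R498.MP.HX_eval] at g1 g2
    have e : ((h : ℤ) * ((Nat.nth Nat.Prime (u * (k + i) + (u + b - 1)) : ℕ) : ℤ)) ^ 2 + 1 =
        (((h * Nat.nth Nat.Prime (u * (k + i) + (u + b - 1))) ^ 2 + 1 : ℕ) : ℤ) := by
      push_cast; ring
    rw [e] at g1 g2
    rw [Int.natAbs_natCast] at g1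
    exact ⟨gc, g1, fun q hq hqd => g2 q hq (by exact_mod_cast hqd)⟩

end Pool.Agent.Results.MP_7169d5_nt.IndexClasses
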