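import Pool.Agent.R498.MP.LinC

set_option autoImplicit false

/-!
# Strings of consecutive primes `p` in a residue class with almost prime `(h p) ^ 2 + 1`
-/

namespace Pool.Agent.Results.MP_7169d5_nt.PrimeStrings

open Filter

/-- `a ^ 2 + 1` has at most `r` prime factors, counted with multiplicity, all of them at least `w`. -/
def AlmostPrimeValue (r : ℕ) (w : ℝ) (a : ℕ) : Prop :=
  (a ^ 2 + 1).primeFactorsList.length ≤ r ∧ ∀ q : ℕ, q.Prime → q ∣ a ^ 2 + 1 → w ≤ q

/-- The primes in the interval `[x, x + C]` are exactly the numbers `x + s`, `s ∈ H`. -/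
def PrimePattern (C : ℕ) (H : Finset ℕ) (x : ℕ) : Prop := ∀ y ≤ C, (x + y).Prime ↔ y ∈ H

/-- **Strings of consecutive primes `p ≡ c` modulo `q` with almost prime `(h p) ^ 2 + 1`.** Let `h` be
even, let `q` be squarefree and let `c ((h c) ^ 2 + 1)` be coprime to `q` (for instance `q = 1`). For every
`m` there are `K`, `r` and `δ > 0` such that, for every finite set `S` of at least `K` nonnegative
integers and every `l`, there is an exponent `B` such that for all large `N` there are a subset `H` of `S`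
with at least `m` elements and an arithmetic progression `n, n + d, ..., n + (l - 1) d` in `(N, 2 N]` with
difference `1 ≤ d ≤ (log N) ^ B` such that for all its terms `x` the primes in `[x, x + max S]` are
exactly the numbers `x + s`, `s ∈ H`, and all these primes `p` are `≡ c` modulo `q` and the numbers
`a ^ 2 + 1` with `a = h p` have at most `r` prime factors, all of them at least `N ^ δ`. -/
theorem result (h : ℕ) (hh : Even h) (q c : ℕ) (hq : Squarefree q)
    (hc : IsCoprime ((c : ℤ) * (((h : ℤ) * c) ^ 2 + 1)) (q : ℤ)) (m : ℕ) :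
    ∃ (K r : ℕ) (δ : ℝ), 0 < δ ∧ ∀ S : Finset ℕ, K ≤ S.card → ∀ l : ℕ, ∃ B : ℕ,
      ∀ᶠ N : ℕ in atTop, ∃ H ⊆ S, m ≤ H.card ∧ ∃ n d : ℕ, 1 ≤ d ∧ (d : ℝ) ≤ Real.log N ^ B ∧
      ∀ j < l, N < n + j * d ∧ n + j * d + S.sup id ≤ 2 * N ∧
        PrimePattern (S.sup id) H (n + j * d) ∧
        ∀ s ∈ H, n + j * d + s ≡ c [MOD q] ∧
          AlmostPrimeValue r ((N : ℝ) ^ δ) (h * (n + j * d + s)) := by
  obtain ⟨K, r, δ, hδ, hmain⟩ := Pool.Agent.R498.MP.stringsCR (Pool.Agent.R498.MP.HX h 1)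
    (fun n _ => Pool.Agent.R498.MP.HX_nz h 1 (by
      rintro ⟨r, hr⟩
      nlinarith [mul_self_nonneg r]) n)
    (Pool.Agent.R498.MP.HX_adm h 1 (Pool.Agent.R498.MP.one_ok h hh)) q c hq (fun p hp hpq => by
      rw [Pool.Agent.R498.MP.HX_eval]
      exact Pool.Agent.R498.MP.cop_to _ q hc p hp hpq) m
  refine ⟨K, r, δ, hδ, fun S hS l => ?_⟩
  obtain ⟨B, hB⟩ := hmain S hS l
  refine ⟨B, ?_⟩
  filter_upwards [hB] with N hN
  obtain ⟨H, hH, hHm, n, d, h3, h4, h5⟩ := hN
  refine ⟨H, hH, hHm, n, d, h3, h4, fun j hj => ?_⟩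
  obtain ⟨g1, g2, g3, g4⟩ := h5 j hj
  refine ⟨g1, g2, g3, fun s hs => ?_⟩
  obtain ⟨gc, -, g5, g6⟩ := g4 s hs
  rw [Pool.Agent.R498.MP.HX_eval] at g5 g6
  have e : ((h : ℤ) * ((n + j * d + s : ℕ) : ℤ)) ^ 2 + 1 =
      (((h * (n + j * d + s)) ^ 2 + 1 : ℕ) : ℤ) := by push_cast; ring
  rw [e] at g5 g6
  rw [Int.natAbs_natCast] at g5
  exact ⟨gc, g5, fun q hq hqd => g6 q hq (by exact_mod_cast hqd)⟩

end Pool.Agent.Results.MP_7169d5_nt.PrimeStrings
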