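import Pool.Agent.R498.MT.QSys

set_option autoImplicit false

/-!
# Clusters of `a` with `a ^ 2 + 1` in `P₃` and with almost prime values of further polynomials
-/

namespace Pool.Agent.Results.MP_7169d5_nt.SystemClusters

open Filter

/-- `n ≠ 0` is up to the sign a product of at most `r` primes, counted with multiplicity, all of them at
least `w`. -/
def AlmostPrime (r : ℕ) (w : ℝ) (n : ℤ) : Prop :=
  n ≠ 0 ∧ n.natAbs.primeFactorsList.length ≤ r ∧ ∀ q : ℕ, q.Prime → (q : ℤ) ∣ n → w ≤ q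

/-- **A theorem of Maynard-Tao type for `a ^ 2 + 1` and further polynomials.** Let `f` be a nonzero
polynomial with integer coefficients such that `(x ^ 2 + 1) f(x)` has no fixed prime divisor. For every
`m` there is `K` such that, for every finite set `S` of at least `K` nonnegative integers, there are `r`
and `δ > 0`, and for every `l` there is an exponent `B`, such that for all large `N` there are a subset `H`
of `S` with `m` elements and an arithmetic progression `n, n + d, ..., n + (l - 1) d` in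
`(N, N + N ^ (3 / 4)]` with difference `1 ≤ d ≤ (log N) ^ B` such that for all its terms `x` and all
`h ∈ H`, with `a = x + h`: the number `a ^ 2 + 1` has at most three prime factors, all of them at least
`N ^ (73 / 400)`, and `f(a)` has at most `r` prime factors, all of them at least `N ^ δ`. -/
theorem result (f : Polynomial ℤ) (hf : f ≠ 0)
    (hadm : ∀ p : ℕ, p.Prime → ∃ n : ℤ, ¬ (p : ℤ) ∣ (n ^ 2 + 1) * f.eval n) (m : ℕ) :
    ∃ K : ℕ, ∀ S : Finset ℕ, K ≤ S.card → ∃ (r : ℕ) (δ : ℝ), 0 < δ ∧ ∀ l : ℕ, ∃ B : ℕ,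
      ∀ᶠ N : ℕ in atTop, ∃ H ⊆ S, H.card = m ∧ ∃ n d : ℕ, 1 ≤ d ∧ (d : ℝ) ≤ Real.log N ^ B ∧
      ∀ j < l, N < n + j * d ∧ ((n + j * d : ℕ) : ℝ) ≤ N + (N : ℝ) ^ (3 / 4 : ℝ) ∧
        ∀ h ∈ H, AlmostPrime 3 ((N : ℝ) ^ (73 / 400 : ℝ)) (((n + j * d + h : ℕ) : ℤ) ^ 2 + 1) ∧
          AlmostPrime r ((N : ℝ) ^ δ) (f.eval ((n + j * d + h : ℕ) : ℤ)) := by
  obtain ⟨K, hK⟩ := Pool.Agent.R498.MT.quad_sys 1 0 1 one_ne_zero
    (by
      rintro ⟨r, hr⟩
      nlinarith [mul_self_nonneg r])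
    f hf
    (fun p hp => by
      obtain ⟨n, hn⟩ := hadm p hp
      refine ⟨n, fun h => hn ?_⟩
      have e : (1 : ℤ) * n ^ 2 + 0 * n + 1 = n ^ 2 + 1 := by ring
      rwa [e] at h) m
  obtain ⟨n₀, hn₀⟩ := Pool.Agent.Y677.RSZ.ne_zero_ev f hf
  refine ⟨K, fun S hS => ?_⟩
  obtain ⟨r, δ, hδ, hmain⟩ := hK S hS
  refine ⟨r, δ, hδ, fun l => ?_⟩
  obtain ⟨B, hB⟩ := hmain l
  refine ⟨B, ?_⟩
  filter_upwards [hB, eventually_ge_atTop n₀] with N hN hN2
  obtain ⟨H, hH, hHc, n, d, h1, h2, h3⟩ := hN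
  refine ⟨H, hH, hHc, n, d, h1, h2, fun j hj => ?_⟩
  obtain ⟨h4, h5, h6⟩ := h3 j hj
  refine ⟨h4, h5, fun h hh => ?_⟩
  obtain ⟨g1, g2, g3, g4⟩ := h6 h hh
  have e1 : 1 * ((n + j * d + h : ℕ) : ℤ) ^ 2 + 0 * ((n + j * d + h : ℕ) : ℤ) + 1 =
      ((n + j * d + h : ℕ) : ℤ) ^ 2 + 1 := by ring
  rw [e1] at g1 g2
  refine ⟨⟨by positivity, g1, g2⟩, hn₀ _ (by omega), g3, g4⟩

end Pool.Agent.Results.MP_7169d5_nt.SystemClusters
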